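import Pool.Agent.Helper39.Trans.Goals

/-!
# Packet H of MP_549fdb_co: small negative perturbations do not decrease the number of types
-/

namespace Pool.Agent.Helper35.Trans

open Finset Classical Matrix
open Pool.Agent.Helper39.Trans Pool.Agent.Helper39.Trans.Sys

variable {n : ℕ} {ι Λ κ : Type} [Fintype ι] [Fintype Λ] [Fintype κ]

lemma exists_gap (S : Finset ℝ) : ∃ c : ℝ, 0 < c ∧ ∀ x ∈ S, x ≠ 0 → c ≤ |x| := by
  induction S using Finset.induction_on with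
  | empty => exact ⟨1, one_pos, by simp⟩
  | insert a S _ ih =>
    obtain ⟨c, hc, h⟩ := ih
    by_cases ha : a = 0
    · refine ⟨c, hc, ?_⟩
      intro x hx hx0
      rcases Finset.mem_insert.1 hx with rfl | hx
      · exact absurd ha hx0
      · exact h x hx hx0
    · refine ⟨min c |a|, lt_min hc (abs_pos.2 ha), ?_⟩
      intro x hx hx0
      rcases Finset.mem_insert.1 hx with rfl | hx
      · exact min_le_right _ _
      · exact (min_le_left _ _).trans (h x hx hx0)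

lemma first_time {σ : Type} [Fintype σ] (α β : σ → ℝ) (hα : ∀ i, 0 ≤ α i)
    (h0 : ∀ i, 0 < β i → 0 < α i) (j : σ) (hj : 0 < β j) :
    ∃ s : ℝ, 0 < s ∧ s ≤ α j / β j ∧ (∀ i, 0 ≤ α i - s * β i) ∧
      ∃ i, 0 < α i ∧ α i - s * β i = 0 := by
  obtain ⟨i, hi, hmin⟩ := Finset.exists_min_image (univ.filter fun i => 0 < β i)
    (fun i => α i / β i) ⟨j, by simpa using hj⟩
  have hi' : 0 < β i := by simpa using hi
  have hs : 0 < α i / β i := div_pos (h0 i hi') hi'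
  refine ⟨α i / β i, hs, hmin j (by simpa using hj), ?_, i, h0 i hi', ?_⟩
  · intro k
    rcases lt_or_ge 0 (β k) with hk | hk
    · have := hmin k (by simpa using hk)
      have h1 : α i / β i * β k ≤ α k := by
        rw [le_div_iff₀ hk] at this
        exact this
      linarith
    · have : α i / β i * β k ≤ 0 := mul_nonpos_of_nonneg_of_nonpos hs.le hk
      have := hα k
      linarith
  · field_simp
    ring

lemma mem_fib {A : Sys n ι Λ κ} {l : Λ} {v : ι} : v ∈ A.fib l ↔ A.grp v = l := by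
  simp [Sys.fib]

lemma mem_W {A : Sys n ι Λ κ} {l : Λ} {q : Fin n → ℝ} {v : ι} :
    v ∈ A.W l q ↔ A.grp v = l ∧ ∀ w, A.grp w = l → A.h v q ≤ A.h w q := by
  simp [Sys.W, mem_fib]

lemma W_nonempty {A : Sys n ι Λ κ} (hA : A.Full) (l : Λ) (q : Fin n → ℝ) : (A.W l q).Nonempty := by
  obtain ⟨v0, hv0⟩ := hA l
  obtain ⟨v, hv, hmin⟩ := Finset.exists_min_image (A.fib l) (fun v => A.h v q)
    ⟨v0, mem_fib.2 hv0⟩
  exact ⟨v, mem_W.2 ⟨mem_fib.1 hv, fun w hw => hmin w (mem_fib.2 hw)⟩⟩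

lemma not_In {A : Sys n ι Λ κ} (hA : A.Full) {l : Λ} {q : Fin n → ℝ} :
    ¬ A.In l q ↔ ∀ v ∈ A.W l q, A.h v q ≤ 0 := by
  constructor
  · intro h v hv
    simp only [Sys.In, not_forall, not_lt] at h
    obtain ⟨w, hw, h⟩ := h
    exact ((mem_W.1 hv).2 w (mem_fib.1 hw)).trans h
  · intro h hIn
    obtain ⟨v, hv⟩ := W_nonempty hA l q
    have := hIn v (mem_fib.2 (mem_W.1 hv).1)
    linarith [h v hv]

lemma act_iff {A : Sys n ι Λ κ} (hA : A.Full) {l : Λ} {q : Fin n → ℝ} :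
    A.Act l q ↔ ∀ v ∈ A.W l q, A.h v q = 0 := by
  constructor
  · rintro ⟨w, hw, h0⟩ v hv
    have h1 := (mem_W.1 hv).2 w (mem_W.1 hw).1
    have h2 := (mem_W.1 hw).2 v (mem_W.1 hv).1
    linarith
  · intro h
    obtain ⟨v, hv⟩ := W_nonempty hA l q
    exact ⟨v, hv, h v hv⟩

/-- The measure that increases in the descent. -/
noncomputable def M (A : Sys n ι Λ κ) (q : Fin n → ℝ) : ℕ :=
  ∑ l, (A.W l q).card + (A.Ig q).card

/-- The kernel of a type. -/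
def KerT (A : Sys n ι Λ κ) (W : Λ → Finset ι) (I : Finset Λ) (d : Fin n → ℝ) : Prop :=
  (∀ l, ∀ v ∈ W l, ∀ w ∈ W l, A.a v ⬝ᵥ d = A.a w ⬝ᵥ d) ∧ (∀ l ∈ I, ∀ v ∈ W l, A.a v ⬝ᵥ d = 0)

lemma h_add {A : Sys n ι Λ κ} (v : ι) (q d : Fin n → ℝ) (s : ℝ) :
    A.h v (q + s • d) = A.h v q + s * (A.a v ⬝ᵥ d) := by
  simp only [Sys.h, dotProduct_add, dotProduct_smul, smul_eq_mul]
  ring

lemma M_lt {A : Sys n ι Λ κ} {q q' : Fin n → ℝ} (hW : ∀ l, A.W l q ⊆ A.W l q')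
    (hA : ∀ l, A.Act l q → A.Act l q')
    (hn : (∃ l v, v ∈ A.W l q' ∧ v ∉ A.W l q) ∨ ∃ l, A.Act l q' ∧ ¬ A.Act l q) :
    M A q < M A q' := by
  have h1 : ∑ l, (A.W l q).card ≤ ∑ l, (A.W l q').card :=
    Finset.sum_le_sum fun l _ => Finset.card_le_card (hW l)
  have h2s : A.Ig q ⊆ A.Ig q' := by
    intro l hl
    simp only [Sys.Ig, mem_filter, mem_univ, true_and] at hl ⊢
    exact hA l hl
  have h2 : (A.Ig q).card ≤ (A.Ig q').card := Finset.card_le_card h2s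
  unfold M
  rcases hn with ⟨l, v, hv, hv'⟩ | ⟨l, hl, hl'⟩
  · have : ∑ l, (A.W l q).card < ∑ l, (A.W l q').card := by
      apply Finset.sum_lt_sum (fun l _ => Finset.card_le_card (hW l))
      refine ⟨l, mem_univ _, Finset.card_lt_card ?_⟩
      exact (Finset.ssubset_iff_of_subset (hW l)).2 ⟨v, hv, hv'⟩
    omega
  · have : (A.Ig q).card < (A.Ig q').card := by
      apply Finset.card_lt_card
      refine (Finset.ssubset_iff_of_subset h2s).2 ⟨l, ?_, ?_⟩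
      · simpa [Sys.Ig] using hl
      · simpa [Sys.Ig] using hl'
    omega

lemma M_le (A : Sys n ι Λ κ) (q : Fin n → ℝ) : M A q ≤ Fintype.card ι + Fintype.card Λ := by
  unfold M
  have h1 : ∑ l, (A.W l q).card ≤ Fintype.card ι := by
    have : ∑ l, (A.W l q).card ≤ ∑ l, (A.fib l).card :=
      Finset.sum_le_sum fun l _ => Finset.card_le_card (Finset.filter_subset _ _)
    refine this.trans (le_of_eq ?_)
    rw [← Finset.card_univ (α := ι)]
    exact (Finset.card_eq_sum_card_fiberwise (f := A.grp) (t := univ) (by simp [Set.MapsTo])).symm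
  have h2 : (A.Ig q).card ≤ Fintype.card Λ := Finset.card_le_univ _
  omega

/-- One step of the descent. -/
lemma step_core {A : Sys n ι Λ κ} (hF : A.Full) {q d : Fin n → ℝ} (hIn : ∀ l, ¬ A.In l q)
    (hK : KerT A (fun l => A.W l q) (A.Ig q) d) (σ : ℝ)
    (hj : (∃ v w, v ∈ A.W (A.grp v) q ∧ A.grp w = A.grp v ∧ A.a w ⬝ᵥ d < A.a v ⬝ᵥ d ∧
        (A.h w q - A.h v q) / (A.a v ⬝ᵥ d - A.a w ⬝ᵥ d) ≤ σ) ∨
      (∃ v, v ∈ A.W (A.grp v) q ∧ 0 < A.a v ⬝ᵥ d ∧ (- A.h v q) / (A.a v ⬝ᵥ d) ≤ σ)) :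
    ∃ s : ℝ, 0 < s ∧ s ≤ σ ∧ (∀ l, ¬ A.In l (q + s • d)) ∧ M A q < M A (q + s • d) := by
  let T1 := {x : ι × ι // x.1 ∈ A.W (A.grp x.1) q ∧ A.grp x.2 = A.grp x.1}
  let T2 := {v : ι // v ∈ A.W (A.grp v) q}
  let α : T1 ⊕ T2 → ℝ := Sum.elim (fun x => A.h x.1.2 q - A.h x.1.1 q) (fun v => - A.h v.1 q)
  let β : T1 ⊕ T2 → ℝ := Sum.elim (fun x => A.a x.1.1 ⬝ᵥ d - A.a x.1.2 ⬝ᵥ d)
    (fun v => A.a v.1 ⬝ᵥ d)
  have hα : ∀ i, 0 ≤ α i := by
    rintro (⟨⟨v, w⟩, hv, hw⟩ | ⟨v, hv⟩)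
    · have := (mem_W.1 hv).2 w hw
      simp only [α, Sum.elim_inl]
      linarith
    · have := (not_In hF).1 (hIn (A.grp v)) v hv
      simp only [α, Sum.elim_inr]
      linarith
  have h0 : ∀ i, 0 < β i → 0 < α i := by
    intro i hi
    rcases (hα i).lt_or_eq with h | h
    · exact h
    · exfalso
      rcases i with ⟨⟨v, w⟩, hv, hw⟩ | ⟨v, hv⟩
      · simp only [α, β, Sum.elim_inl] at h hi
        have hw' : w ∈ A.W (A.grp v) q := by
          refine mem_W.2 ⟨hw, fun u hu => ?_⟩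
          have := (mem_W.1 hv).2 u hu
          linarith
        have := hK.1 (A.grp v) v hv w hw'
        linarith
      · simp only [α, β, Sum.elim_inr] at h hi
        have hact : A.Act (A.grp v) q := ⟨v, hv, by linarith⟩
        have := hK.2 (A.grp v) (by simpa [Sys.Ig] using hact) v hv
        linarith
  obtain ⟨j, hj0, hjσ⟩ : ∃ j, 0 < β j ∧ α j / β j ≤ σ := by
    rcases hj with ⟨v, w, hv, hw, h1, h2⟩ | ⟨v, hv, h1, h2⟩
    · refine ⟨Sum.inl ⟨(v, w), hv, hw⟩, ?_, ?_⟩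
      · simp only [β, Sum.elim_inl]
        linarith
      · simpa only [α, β, Sum.elim_inl] using h2
    · refine ⟨Sum.inr ⟨v, hv⟩, ?_, ?_⟩
      · simpa only [β, Sum.elim_inr] using h1
      · simpa only [α, β, Sum.elim_inr] using h2
  obtain ⟨s, hs, hsj, hall, i, hi0, hi⟩ := first_time α β hα h0 j hj0
  have hWs : ∀ l, A.W l q ⊆ A.W l (q + s • d) := by
    intro l v hv
    have hvl := (mem_W.1 hv).1
    subst hvl
    refine mem_W.2 ⟨rfl, fun w hw => ?_⟩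
    have := hall (Sum.inl ⟨(v, w), hv, hw⟩)
    simp only [α, β, Sum.elim_inl] at this
    rw [h_add, h_add]
    nlinarith
  have hWle : ∀ l, ∀ v ∈ A.W l q, A.h v (q + s • d) ≤ 0 := by
    intro l v hv
    have hvl := (mem_W.1 hv).1
    subst hvl
    have := hall (Sum.inr ⟨v, hv⟩)
    simp only [α, β, Sum.elim_inr] at this
    rw [h_add]
    linarith
  have hAs : ∀ l, A.Act l q → A.Act l (q + s • d) := by
    rintro l hl
    obtain ⟨v, hv, h⟩ := id hl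
    refine ⟨v, hWs l hv, ?_⟩
    have := hK.2 l (by simpa [Sys.Ig] using hl) v hv
    rw [h_add, this, h]
    ring
  refine ⟨s, hs, hsj.trans hjσ, ?_, ?_⟩
  · intro l
    rw [not_In hF]
    obtain ⟨w, hw⟩ := W_nonempty hF l q
    intro v hv
    exact ((mem_W.1 hv).2 w (mem_W.1 hw).1).trans (hWle l w hw)
  · apply M_lt hWs hAs
    rcases i with ⟨⟨v, w⟩, hv, hw⟩ | ⟨v, hv⟩
    · simp only [α, β, Sum.elim_inl] at hi hi0
      left
      refine ⟨A.grp v, w, ?_, ?_⟩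
      · refine mem_W.2 ⟨hw, fun u hu => ?_⟩
        have h1 := (mem_W.1 (hWs _ hv)).2 u hu
        refine le_trans (le_of_eq ?_) h1
        rw [h_add, h_add]
        linarith
      · intro hw'
        have := (mem_W.1 hw').2 v rfl
        linarith
    · simp only [α, β, Sum.elim_inr] at hi hi0
      right
      refine ⟨A.grp v, ⟨v, hWs _ hv, ?_⟩, ?_⟩
      · rw [h_add]
        linarith
      · intro hact
        have := (act_iff hF).1 hact v hv
        linarith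


lemma KerT_neg {A : Sys n ι Λ κ} {W : Λ → Finset ι} {I : Finset Λ} {d : Fin n → ℝ}
    (h : KerT A W I d) : KerT A W I (-d) := by
  refine ⟨fun l v hv w hw => ?_, fun l hl v hv => ?_⟩
  · rw [dotProduct_neg, dotProduct_neg, h.1 l v hv w hw]
  · rw [dotProduct_neg, h.2 l hl v hv, neg_zero]

lemma KerT_shift {A : Sys n ι Λ κ} {δ : ι → ℝ} {η : κ → ℝ} {W : Λ → Finset ι} {I : Finset Λ}
    {d : Fin n → ℝ} : KerT (A.shift δ η) W I d ↔ KerT A W I d := Iff.rfl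

lemma full_shift {A : Sys n ι Λ κ} (hF : A.Full) (δ : ι → ℝ) (η : κ → ℝ) :
    (A.shift δ η).Full := hF

lemma h_shift (A : Sys n ι Λ κ) (δ : ι → ℝ) (η : κ → ℝ) (v : ι) (q : Fin n → ℝ) :
    (A.shift δ η).h v q = A.h v q + δ v := by
  simp only [Sys.h, Sys.shift]
  ring

lemma h_sub (A : Sys n ι Λ κ) (v : ι) (q p : Fin n → ℝ) :
    A.h v q = A.h v p + A.a v ⬝ᵥ (q - p) := by
  simp only [Sys.h, dotProduct_sub]
  ring

lemma exists_K (A : Sys n ι Λ κ) : ∃ K : ℝ, 0 < K ∧ ∀ v (x : Fin n → ℝ),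
    |A.a v ⬝ᵥ x| ≤ K * ‖x‖ := by
  refine ⟨∑ v, ∑ i, |A.a v i| + 1, by positivity, fun v x => ?_⟩
  have h1 : |A.a v ⬝ᵥ x| ≤ (∑ i, |A.a v i|) * ‖x‖ := by
    simp only [dotProduct]
    refine (Finset.abs_sum_le_sum_abs _ _).trans ?_
    rw [Finset.sum_mul]
    refine Finset.sum_le_sum fun i _ => ?_
    rw [abs_mul]
    exact mul_le_mul_of_nonneg_left (by simpa using norm_le_pi_norm x i) (abs_nonneg _)
  have h2 : ∑ i, |A.a v i| ≤ ∑ v, ∑ i, |A.a v i| :=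
    Finset.single_le_sum (f := fun v => ∑ i, |A.a v i|)
      (fun w _ => Finset.sum_nonneg fun i _ => abs_nonneg _) (mem_univ v)
  have h3 : 0 ≤ ‖x‖ := norm_nonneg x
  nlinarith

/-- Near `p` the type only gets smaller. -/
lemma near {A : Sys n ι Λ κ} (hF : A.Full) {p : Fin n → ℝ} (hp : ∀ l, ¬ A.In l p) :
    ∃ ρ : ℝ, 0 < ρ ∧ ∀ (δ : ι → ℝ) (η : κ → ℝ) (q : Fin n → ℝ), (∀ v, |δ v| ≤ ρ) →
      ‖q - p‖ ≤ ρ → (∀ l, (A.shift δ η).W l q ⊆ A.W l p) ∧
        ∀ l, (A.shift δ η).Act l q → A.Act l p := by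
  obtain ⟨K, hK, hKv⟩ := exists_K A
  obtain ⟨c, hc, hcS⟩ := exists_gap ((univ.image fun v => A.h v p) ∪
    (univ.image fun x : ι × ι => A.h x.1 p - A.h x.2 p))
  have hc1 : ∀ v, A.h v p ≠ 0 → c ≤ |A.h v p| := fun v hv =>
    hcS _ (mem_union_left _ (mem_image_of_mem _ (mem_univ v))) hv
  have hc2 : ∀ v w, A.h v p - A.h w p ≠ 0 → c ≤ |A.h v p - A.h w p| := fun v w hv =>
    hcS _ (mem_union_right _ (mem_image.2 ⟨(v, w), mem_univ _, rfl⟩)) hv
  refine ⟨c / (2 * K + 3), by positivity, fun δ η q hδ hq => ?_⟩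
  set ρ := c / (2 * K + 3) with hρ
  have hρc : (2 * K + 3) * ρ = c := by rw [hρ]; field_simp
  have hρ0 : 0 < ρ := by positivity
  have hval : ∀ v, |(A.shift δ η).h v q - A.h v p| ≤ (K + 1) * ρ := by
    intro v
    rw [h_shift, h_sub A v q p]
    have h1 := hKv v (q - p)
    have h2 := hδ v
    have h3 : K * ‖q - p‖ ≤ K * ρ := mul_le_mul_of_nonneg_left hq hK.le
    have h4 : A.h v p + A.a v ⬝ᵥ (q - p) + δ v - A.h v p = A.a v ⬝ᵥ (q - p) + δ v := by ring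
    rw [h4]
    refine (abs_add_le _ _).trans ?_
    linarith
  have hWs : ∀ l, (A.shift δ η).W l q ⊆ A.W l p := by
    intro l v hv
    obtain ⟨w, hw⟩ := W_nonempty hF l p
    have hvl : A.grp v = l := (mem_W.1 hv).1
    have hwl := (mem_W.1 hw).1
    have h1 := (mem_W.1 hv).2 w hwl
    have h2 := (mem_W.1 hw).2 v hvl
    have h3 := abs_le.1 (hval v)
    have h4 := abs_le.1 (hval w)
    have h5 : A.h v p - A.h w p = 0 := by
      by_contra hne
      have h6 := hc2 v w hne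
      rw [abs_of_nonneg (by linarith)] at h6
      nlinarith
    refine mem_W.2 ⟨hvl, fun u hu => ?_⟩
    have := (mem_W.1 hw).2 u hu
    linarith
  refine ⟨hWs, fun l hl => ?_⟩
  rw [act_iff (full_shift hF δ η)] at hl
  obtain ⟨v, hv⟩ := W_nonempty (full_shift hF δ η) l q
  have hv0 := hl v hv
  have hvp := hWs l hv
  have h1 := (not_In hF).1 (hp l) v hvp
  refine ⟨v, hvp, ?_⟩
  by_contra hne
  have h6 := hc1 v hne
  rw [abs_of_nonpos h1] at h6
  have h3 := abs_le.1 (hval v)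
  rw [hv0] at h3
  nlinarith

lemma step_type {A : Sys n ι Λ κ} (hF : A.Full) {p : Fin n → ℝ} (hp : ∀ l, ¬ A.In l p)
    (τ : (Λ → Finset ι) × Finset Λ) :
    ∃ K0 : ℝ, 0 < K0 ∧ ∀ (r : ℝ) (δ : ι → ℝ) (η : κ → ℝ) (q : Fin n → ℝ), 0 < r →
      (∀ v, |δ v| ≤ r) → ‖q - p‖ ≤ r → (∀ l, ¬ (A.shift δ η).In l q) →
      (∀ l, (A.shift δ η).W l q ⊆ A.W l p) → (A.shift δ η).typ q = τ →
      (∀ d, KerT A τ.1 τ.2 d → KerT A (fun l => A.W l p) (A.Ig p) d) ∨
      ∃ q', ‖q' - p‖ ≤ K0 * r ∧ (∀ l, ¬ (A.shift δ η).In l q') ∧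
        M (A.shift δ η) q < M (A.shift δ η) q' := by
  obtain ⟨K, hK, hKv⟩ := exists_K A
  by_cases hd : ∃ d, KerT A τ.1 τ.2 d ∧ ¬ KerT A (fun l => A.W l p) (A.Ig p) d
  swap
  · refine ⟨1, one_pos, fun r δ η q _ _ _ _ _ _ => Or.inl fun d hd' => ?_⟩
    by_contra h
    exact hd ⟨d, hd', h⟩
  obtain ⟨d, hd1, hd2⟩ := hd
  obtain ⟨c, hc, hcS⟩ := exists_gap ((univ.image fun v => A.a v ⬝ᵥ d) ∪
    (univ.image fun x : ι × ι => A.a x.1 ⬝ᵥ d - A.a x.2 ⬝ᵥ d))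
  have hc1 : ∀ v, A.a v ⬝ᵥ d ≠ 0 → c ≤ |A.a v ⬝ᵥ d| := fun v hv =>
    hcS _ (mem_union_left _ (mem_image_of_mem _ (mem_univ v))) hv
  have hc2 : ∀ v w, A.a v ⬝ᵥ d - A.a w ⬝ᵥ d ≠ 0 → c ≤ |A.a v ⬝ᵥ d - A.a w ⬝ᵥ d| :=
    fun v w hv => hcS _ (mem_union_right _ (mem_image.2 ⟨(v, w), mem_univ _, rfl⟩)) hv
  refine ⟨1 + (2 * K + 2) / c * ‖d‖, by positivity, ?_⟩
  intro r δ η q hr hδ hq hIn hWs hτ
  right
  have hval : ∀ v, |(A.shift δ η).h v q - A.h v p| ≤ (K + 1) * r := by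
    intro v
    rw [h_shift, h_sub A v q p]
    have h1 := hKv v (q - p)
    have h2 := hδ v
    have h3 : K * ‖q - p‖ ≤ K * r := mul_le_mul_of_nonneg_left hq hK.le
    have h4 : A.h v p + A.a v ⬝ᵥ (q - p) + δ v - A.h v p = A.a v ⬝ᵥ (q - p) + δ v := by ring
    rw [h4]
    refine (abs_add_le _ _).trans ?_
    linarith
  -- the general step along `d'`
  have main : ∀ d' : Fin n → ℝ, ‖d'‖ = ‖d‖ → KerT A τ.1 τ.2 d' →
      ((∃ v w, v ∈ (A.shift δ η).W (A.grp v) q ∧ A.grp w = A.grp v ∧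
        c ≤ A.a v ⬝ᵥ d' - A.a w ⬝ᵥ d' ∧
        ((A.shift δ η).h w q - (A.shift δ η).h v q) ≤ (2 * K + 2) * r) ∨
      (∃ v, v ∈ (A.shift δ η).W (A.grp v) q ∧ c ≤ A.a v ⬝ᵥ d' ∧
        (- (A.shift δ η).h v q) ≤ (2 * K + 2) * r)) →
      ∃ q', ‖q' - p‖ ≤ (1 + (2 * K + 2) / c * ‖d‖) * r ∧ (∀ l, ¬ (A.shift δ η).In l q') ∧
        M (A.shift δ η) q < M (A.shift δ η) q' := by
    intro d' hd' hker hcase
    have hker' : KerT (A.shift δ η) (fun l => (A.shift δ η).W l q) ((A.shift δ η).Ig q) d' := by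
      rw [← hτ] at hker
      exact hker
    have hbound : ∀ x y : ℝ, 0 ≤ x → x ≤ (2 * K + 2) * r → c ≤ y →
        x / y ≤ (2 * K + 2) / c * r := by
      intro x y hx hx' hy
      have : x / y ≤ ((2 * K + 2) * r) / c := by
        apply div_le_div₀ (by positivity) hx' hc hy
      refine this.trans (le_of_eq (by ring))
    obtain ⟨s, hs, hsσ, hIn', hM⟩ := step_core (full_shift hF δ η) hIn hker'
      ((2 * K + 2) / c * r) (by
        rcases hcase with ⟨v, w, hv, hw, h1, h2⟩ | ⟨v, hv, h1, h2⟩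
        · left
          refine ⟨v, w, hv, hw, ?_, ?_⟩
          · show A.a w ⬝ᵥ d' < A.a v ⬝ᵥ d'
            linarith
          · refine hbound _ _ ?_ h2 h1
            have := (mem_W.1 hv).2 w hw
            linarith
        · right
          refine ⟨v, hv, lt_of_lt_of_le hc h1, hbound _ _ ?_ h2 h1⟩
          have := (not_In (full_shift hF δ η)).1 (hIn (A.grp v)) v hv
          linarith)
    refine ⟨q + s • d', ?_, hIn', hM⟩
    have e1 : q + s • d' - p = (q - p) + s • d' := by abel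
    rw [e1]
    refine (norm_add_le _ _).trans ?_
    rw [norm_smul, Real.norm_of_nonneg hs.le, hd']
    have : s * ‖d‖ ≤ ((2 * K + 2) / c * r) * ‖d‖ :=
      mul_le_mul_of_nonneg_right hsσ (norm_nonneg _)
    nlinarith
  -- find the event
  have ev : ∃ v, v ∈ (A.shift δ η).W (A.grp v) q ∧
      ((∃ w ∈ A.W (A.grp v) p, A.a v ⬝ᵥ d - A.a w ⬝ᵥ d ≠ 0) ∨
        (A.Act (A.grp v) p ∧ A.a v ⬝ᵥ d ≠ 0)) := by
    simp only [KerT, not_and_or, not_forall] at hd2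
    rcases hd2 with ⟨l, v0, hv0, w0, hw0, hne⟩ | ⟨l, hl, v0, hv0, hne⟩
    · obtain ⟨v, hv⟩ := W_nonempty (full_shift hF δ η) l q
      have hvl : A.grp v = l := (mem_W.1 hv).1
      subst hvl
      refine ⟨v, hv, Or.inl ?_⟩
      by_cases h : A.a v ⬝ᵥ d - A.a v0 ⬝ᵥ d = 0
      · refine ⟨w0, hw0, fun h' => hne ?_⟩
        linarith
      · exact ⟨v0, hv0, h⟩
    · obtain ⟨v, hv⟩ := W_nonempty (full_shift hF δ η) l q
      have hvl : A.grp v = l := (mem_W.1 hv).1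
      subst hvl
      refine ⟨v, hv, ?_⟩
      by_cases h : A.a v ⬝ᵥ d - A.a v0 ⬝ᵥ d = 0
      · right
        refine ⟨by simpa [Sys.Ig] using hl, fun h' => hne ?_⟩
        linarith
      · exact Or.inl ⟨v0, hv0, h⟩
  obtain ⟨v, hv, hev⟩ := ev
  have hvp : v ∈ A.W (A.grp v) p := hWs _ hv
  rcases hev with ⟨w, hw, hne⟩ | ⟨hact, hne⟩
  · have hwl : A.grp w = A.grp v := (mem_W.1 hw).1
    have hgap := hc2 v w hne
    have hdiff : (A.shift δ η).h w q - (A.shift δ η).h v q ≤ (2 * K + 2) * r := by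
      have h1 := abs_le.1 (hval v)
      have h2 := abs_le.1 (hval w)
      have h3 := (mem_W.1 hw).2 v rfl
      have h4 := (mem_W.1 hvp).2 w hwl
      nlinarith
    rcases lt_or_ge 0 (A.a v ⬝ᵥ d - A.a w ⬝ᵥ d) with hpos | hneg
    · rw [abs_of_pos hpos] at hgap
      exact main d rfl hd1 (Or.inl ⟨v, w, hv, hwl, hgap, hdiff⟩)
    · rw [abs_of_nonpos hneg] at hgap
      refine main (-d) (norm_neg d) (KerT_neg hd1) (Or.inl ⟨v, w, hv, hwl, ?_, hdiff⟩)
      rw [dotProduct_neg, dotProduct_neg]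
      linarith
  · have hgap := hc1 v hne
    have hdiff : - (A.shift δ η).h v q ≤ (2 * K + 2) * r := by
      have h1 := abs_le.1 (hval v)
      have h2 := (act_iff hF).1 hact v hvp
      rw [h2] at h1
      nlinarith
    rcases lt_or_ge 0 (A.a v ⬝ᵥ d) with hpos | hneg
    · rw [abs_of_pos hpos] at hgap
      exact main d rfl hd1 (Or.inr ⟨v, hv, hgap, hdiff⟩)
    · rw [abs_of_nonpos hneg] at hgap
      refine main (-d) (norm_neg d) (KerT_neg hd1) (Or.inr ⟨v, hv, ?_, hdiff⟩)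
      rw [dotProduct_neg]
      linarith

lemma step_unif {A : Sys n ι Λ κ} (hF : A.Full) {p : Fin n → ℝ} (hp : ∀ l, ¬ A.In l p) :
    ∃ K0 : ℝ, 0 < K0 ∧ ∀ (r : ℝ) (δ : ι → ℝ) (η : κ → ℝ) (q : Fin n → ℝ), 0 < r →
      (∀ v, |δ v| ≤ r) → ‖q - p‖ ≤ r → (∀ l, ¬ (A.shift δ η).In l q) →
      (∀ l, (A.shift δ η).W l q ⊆ A.W l p) →
      (∀ d, KerT A (fun l => (A.shift δ η).W l q) ((A.shift δ η).Ig q) d →
        KerT A (fun l => A.W l p) (A.Ig p) d) ∨
      ∃ q', ‖q' - p‖ ≤ K0 * r ∧ (∀ l, ¬ (A.shift δ η).In l q') ∧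
        M (A.shift δ η) q < M (A.shift δ η) q' := by
  choose K0 hK0 h using fun τ => step_type hF hp τ
  refine ⟨∑ τ, K0 τ + 1, ?_, fun r δ η q hr hδ hq hIn hWs => ?_⟩
  · have : 0 ≤ ∑ τ, K0 τ := Finset.sum_nonneg fun τ _ => (hK0 τ).le
    linarith
  · rcases h _ r δ η q hr hδ hq hIn hWs rfl with h1 | ⟨q', h1, h2, h3⟩
    · exact Or.inl h1
    · refine Or.inr ⟨q', h1.trans ?_, h2, h3⟩
      apply mul_le_mul_of_nonneg_right _ hr.le
      have : K0 ((A.shift δ η).typ q) ≤ ∑ τ, K0 τ :=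
        Finset.single_le_sum (f := K0) (fun τ _ => (hK0 τ).le) (mem_univ _)
      linarith

lemma descent {A : Sys n ι Λ κ} (hF : A.Full) {p : Fin n → ℝ} (hp : ∀ l, ¬ A.In l p) (k : ℕ) :
    ∀ ε : ℝ, 0 < ε → ∃ ρ : ℝ, 0 < ρ ∧ ∀ (δ : ι → ℝ) (η : κ → ℝ) (q : Fin n → ℝ),
      (∀ v, |δ v| ≤ ρ) → ‖q - p‖ ≤ ρ → (∀ l, ¬ (A.shift δ η).In l q) →
      Fintype.card ι + Fintype.card Λ ≤ M (A.shift δ η) q + k →
      ∃ q' : Fin n → ℝ, ‖q' - p‖ ≤ ε ∧ (∀ l, ¬ (A.shift δ η).In l q') ∧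
        (∀ l, (A.shift δ η).W l q' ⊆ A.W l p) ∧ (∀ l, (A.shift δ η).Act l q' → A.Act l p) ∧
        (∀ d, KerT A (fun l => (A.shift δ η).W l q') ((A.shift δ η).Ig q') d →
          KerT A (fun l => A.W l p) (A.Ig p) d) := by
  obtain ⟨ρ0, hρ0, hnear⟩ := near hF hp
  obtain ⟨K0, hK0, hstep⟩ := step_unif hF hp
  induction k with
  | zero =>
    intro ε hε
    refine ⟨min ε ρ0, lt_min hε hρ0, fun δ η q hδ hq hIn hM => ?_⟩
    obtain ⟨hW, hAct⟩ := hnear δ η q (fun v => (hδ v).trans (min_le_right _ _))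
      (hq.trans (min_le_right _ _))
    refine ⟨q, hq.trans (min_le_left _ _), hIn, hW, hAct, ?_⟩
    rcases hstep _ δ η q (lt_min hε hρ0) hδ hq hIn hW with h | ⟨q', _, _, h3⟩
    · exact h
    · have := M_le (A.shift δ η) q'
      omega
  | succ k ih =>
    intro ε hε
    obtain ⟨ρ1, hρ1, hrec⟩ := ih ε hε
    have hr : 0 < min (min ε ρ0) (min ρ1 (ρ1 / K0)) :=
      lt_min (lt_min hε hρ0) (lt_min hρ1 (by positivity))
    refine ⟨min (min ε ρ0) (min ρ1 (ρ1 / K0)), hr, fun δ η q hδ hq hIn hM => ?_⟩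
    set r := min (min ε ρ0) (min ρ1 (ρ1 / K0)) with hrdef
    have hrε : r ≤ ε := (min_le_left _ _).trans (min_le_left _ _)
    have hrρ0 : r ≤ ρ0 := (min_le_left _ _).trans (min_le_right _ _)
    have hrρ1 : r ≤ ρ1 := (min_le_right _ _).trans (min_le_left _ _)
    have hrK : r ≤ ρ1 / K0 := (min_le_right _ _).trans (min_le_right _ _)
    obtain ⟨hW, hAct⟩ := hnear δ η q (fun v => (hδ v).trans hrρ0) (hq.trans hrρ0)
    rcases hstep r δ η q hr hδ hq hIn hW with h | ⟨q', h1, h2, h3⟩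
    · exact ⟨q, hq.trans hrε, hIn, hW, hAct, h⟩
    · refine hrec δ η q' (fun v => (hδ v).trans hrρ1) (h1.trans ?_) h2 (by omega)
      rw [le_div_iff₀ hK0] at hrK
      linarith

/-- The point `f p` for one point `p`. -/
lemma claim {A : Sys n ι Λ κ} (hF : A.Full) {p : Fin n → ℝ} (hp : ∀ l, ¬ A.In l p)
    (hb : ∀ k, 0 < A.bx k p) :
    ∃ ε : ℝ, 0 < ε ∧ ∀ (δ : ι → ℝ) (η : κ → ℝ), (∀ v, -ε < δ v ∧ δ v < 0) →
      (∀ k, 0 < η k) → ∃ q : Fin n → ℝ, (A.shift δ η).Box q ∧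
        (∀ l, ¬ (A.shift δ η).In l q) ∧
        (∀ l, (A.shift δ η).W l q ⊆ A.W l p) ∧ (∀ l, (A.shift δ η).Act l q → A.Act l p) ∧
        (∀ d, KerT A (fun l => (A.shift δ η).W l q) ((A.shift δ η).Ig q) d →
          KerT A (fun l => A.W l p) (A.Ig p) d) := by
  have hbox : ∃ ε : ℝ, 0 < ε ∧ ∀ q : Fin n → ℝ, ‖q - p‖ ≤ ε → ∀ k, 0 ≤ A.bx k q := by
    have hcont : ∀ k, Continuous fun q => A.bx k q := by
      intro k
      simp only [Sys.bx, dotProduct]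
      fun_prop
    have hnhds : ∀ᶠ q in nhds p, ∀ k, 0 < A.bx k q := by
      rw [Filter.eventually_all]
      intro k
      exact (hcont k).continuousAt.eventually (lt_mem_nhds (hb k))
    obtain ⟨ε, hε, h⟩ := Metric.eventually_nhds_iff.1 hnhds
    refine ⟨ε / 2, by positivity, fun q hq k => (h ?_ k).le⟩
    rw [dist_eq_norm]
    linarith
  obtain ⟨ε1, hε1, hbox⟩ := hbox
  obtain ⟨ρ, hρ, h⟩ := descent hF hp (Fintype.card ι + Fintype.card Λ) ε1 hε1
  refine ⟨ρ, hρ, fun δ η hδ hη => ?_⟩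
  obtain ⟨q, h1, h2, h3, h4, h5⟩ := h δ η p (fun v => by
      rw [abs_le]
      exact ⟨(hδ v).1.le, by linarith [(hδ v).2]⟩) (by simpa using hρ.le) (by
      intro l
      rw [not_In (full_shift hF δ η)]
      obtain ⟨w, hw⟩ := W_nonempty hF l p
      intro v hv
      have e1 := (mem_W.1 hv).2 w (mem_W.1 hw).1
      rw [h_shift, h_shift] at e1
      have e2 := (not_In hF).1 (hp l) w hw
      rw [h_shift]
      linarith [(hδ w).2]) (by omega)
  refine ⟨q, ?_, h2, h3, h4, h5⟩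
  intro k
  have := hbox q h1 k
  have e : (A.shift δ η).bx k q = A.bx k q + η k := by
    simp only [Sys.bx, Sys.shift]
    ring
  rw [e]
  linarith [hη k]

/-- **Packet H.** -/
theorem transfer : Transfer := by
  intro n ι Λ κ _ _ _ A hF P hP hinj
  have h := fun p : {p // p ∈ P} => claim hF (hP p.1 p.2).2 (hP p.1 p.2).1
  choose ε hε hf using h
  obtain ⟨ε0, hε0, hmin⟩ : ∃ ε0 : ℝ, 0 < ε0 ∧ ∀ p, ε0 ≤ ε p := by
    rcases isEmpty_or_nonempty {p // p ∈ P} with hemp | hne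
    · exact ⟨1, one_pos, fun p => (hemp.false p).elim⟩
    · obtain ⟨i, hi⟩ := Finite.exists_min ε
      exact ⟨ε i, hε i, hi⟩
  refine ⟨ε0, hε0, fun δ η hδ hη => ?_⟩
  choose f hf1 hf2 hf3 hf4 hf5 using fun p => hf p δ η
    (fun v => ⟨by linarith [(hδ v).1, hmin p], (hδ v).2⟩) (fun k => (hη k).1)
  refine ⟨fun p => if hp : p ∈ P then f ⟨p, hp⟩ else p, ?_, ?_⟩
  · intro p hp
    simp only [hp, dif_pos]
    exact ⟨hf1 ⟨p, hp⟩, hf2 ⟨p, hp⟩⟩
  · intro p1 hp1 p2 hp2 heq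
    have hp1' : p1 ∈ P := hp1
    have hp2' : p2 ∈ P := hp2
    simp only [hp1', hp2', dif_pos, Sys.typ, Prod.mk.injEq] at heq
    obtain ⟨eW, eI⟩ := heq
    set q1 := f ⟨p1, hp1'⟩ with hq1
    set q2 := f ⟨p2, hp2'⟩ with hq2
    have eW' : ∀ l, (A.shift δ η).W l q1 = (A.shift δ η).W l q2 := fun l => congrFun eW l
    have k1 := hf5 ⟨p1, hp1'⟩
    have k2 := hf5 ⟨p2, hp2'⟩
    have w1 := hf3 ⟨p1, hp1'⟩
    have w2 := hf3 ⟨p2, hp2'⟩
    have a1 := hf4 ⟨p1, hp1'⟩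
    have a2 := hf4 ⟨p2, hp2'⟩
    simp only at k1 k2 w1 w2 a1 a2
    rw [← hq1] at k1 w1 a1
    rw [← hq2] at k2 w2 a2
    -- the difference is in the common kernel
    have hK : KerT A (fun l => (A.shift δ η).W l q1) ((A.shift δ η).Ig q1) (p1 - p2) := by
      refine ⟨fun l v hv w hw => ?_, fun l hl v hv => ?_⟩
      · have hv1 := w1 l hv
        have hw1 := w1 l hw
        have hv2 : v ∈ A.W l p2 := w2 l (by rw [← eW' l]; exact hv)
        have hw2 : w ∈ A.W l p2 := w2 l (by rw [← eW' l]; exact hw)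
        have e1 := (mem_W.1 hv1).2 w (mem_W.1 hw1).1
        have e2 := (mem_W.1 hw1).2 v (mem_W.1 hv1).1
        have e3 := (mem_W.1 hv2).2 w (mem_W.1 hw2).1
        have e4 := (mem_W.1 hw2).2 v (mem_W.1 hv2).1
        have e5 := h_sub A v p1 p2
        have e6 := h_sub A w p1 p2
        linarith
      · have hl1 : (A.shift δ η).Act l q1 := by simpa [Sys.Ig] using hl
        have hl2 : (A.shift δ η).Act l q2 := by
          have : l ∈ (A.shift δ η).Ig q2 := by rw [← eI]; exact hl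
          simpa [Sys.Ig] using this
        have e1 := (act_iff hF).1 (a1 l hl1) v (w1 l hv)
        have e2 := (act_iff hF).1 (a2 l hl2) v (w2 l (by rw [← eW' l]; exact hv))
        have e3 := h_sub A v p1 p2
        linarith
    have hK1 := k1 _ hK
    have hK2 : KerT A (fun l => A.W l p2) (A.Ig p2) (p1 - p2) := by
      apply k2
      have : (fun l => (A.shift δ η).W l q1) = fun l => (A.shift δ η).W l q2 := funext eW'
      rw [this, eI] at hK
      exact hK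
    apply hinj hp1 hp2
    have sub12 : ∀ l, A.W l p1 ⊆ A.W l p2 := by
      intro l w hw
      obtain ⟨v, hv⟩ := W_nonempty (full_shift hF δ η) l q1
      have hv1 := w1 l hv
      have hv2 : v ∈ A.W l p2 := w2 l (by rw [← eW' l]; exact hv)
      have e1 := hK1.1 l v hv1 w hw
      have e2 := (mem_W.1 hv1).2 w (mem_W.1 hw).1
      have e3 := (mem_W.1 hw).2 v (mem_W.1 hv1).1
      have e5 := h_sub A v p1 p2
      have e6 := h_sub A w p1 p2
      refine mem_W.2 ⟨(mem_W.1 hw).1, fun u hu => ?_⟩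
      have e7 := (mem_W.1 hv2).2 u hu
      linarith
    have sub21 : ∀ l, A.W l p2 ⊆ A.W l p1 := by
      intro l w hw
      obtain ⟨v, hv⟩ := W_nonempty (full_shift hF δ η) l q1
      have hv1 := w1 l hv
      have hv2 : v ∈ A.W l p2 := w2 l (by rw [← eW' l]; exact hv)
      have e1 := hK2.1 l v hv2 w hw
      have e2 := (mem_W.1 hv2).2 w (mem_W.1 hw).1
      have e3 := (mem_W.1 hw).2 v (mem_W.1 hv2).1
      have e5 := h_sub A v p1 p2
      have e6 := h_sub A w p1 p2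
      refine mem_W.2 ⟨(mem_W.1 hw).1, fun u hu => ?_⟩
      have e7 := (mem_W.1 hv1).2 u hu
      linarith
    have eqW : ∀ l, A.W l p1 = A.W l p2 := fun l => Finset.Subset.antisymm (sub12 l) (sub21 l)
    have act12 : ∀ l, A.Act l p1 → A.Act l p2 := by
      intro l hl
      obtain ⟨v, hv⟩ := W_nonempty hF l p1
      have e1 := hK1.2 l (by simpa [Sys.Ig] using hl) v hv
      have e2 := (act_iff hF).1 hl v hv
      have e3 := h_sub A v p1 p2
      exact ⟨v, by rw [← eqW l]; exact hv, by linarith⟩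
    have act21 : ∀ l, A.Act l p2 → A.Act l p1 := by
      intro l hl
      obtain ⟨v, hv⟩ := W_nonempty hF l p2
      have e1 := hK2.2 l (by simpa [Sys.Ig] using hl) v hv
      have e2 := (act_iff hF).1 hl v hv
      have e3 := h_sub A v p1 p2
      exact ⟨v, by rw [eqW l]; exact hv, by linarith⟩
    simp only [Sys.typ, Prod.mk.injEq]
    refine ⟨funext eqW, ?_⟩
    ext l
    simp only [Sys.Ig, mem_filter, mem_univ, true_and]
    exact ⟨act12 l, act21 l⟩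

end Pool.Agent.Helper35.Trans
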